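import Mathlib

/-!
# Spectral sets: definitions
-/

set_option autoImplicit false

open Polynomial

namespace Pool.Agent.Q186.Toep

variable {H : Type*} [NormedAddCommGroup H] [InnerProductSpace ℂ H]

/-- `X` is a spectral set (in the sense of von Neumann) for the operator `T`: it is closed,
contains the spectrum, and `‖r(T)‖ ≤ sup_X |r|` for all rational functions `r = p / q` without
poles in `X`. -/
def IsSpectralSet (X : Set ℂ) (T : H →L[ℂ] H) : Prop :=
  IsClosed X ∧ spectrum ℂ T ⊆ X ∧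
    ∀ p q : ℂ[X], (∀ z ∈ X, q.eval z ≠ 0) → ∀ M : ℝ, (∀ z ∈ X, ‖p.eval z / q.eval z‖ ≤ M) →
      ‖aeval T p * Ring.inverse (aeval T q)‖ ≤ M

/-- There are a polynomial `p` and a number `M` with `|p| ≤ M` on the spectrum of `T` and
`M < ‖p(T)‖`. -/
def PolynomialBoundFails (T : H →L[ℂ] H) : Prop :=
  ∃ (p : ℂ[X]) (M : ℝ), (∀ z ∈ spectrum ℂ T, ‖p.eval z‖ ≤ M) ∧ M < ‖aeval T p‖

theorem PolynomialBoundFails.not_spectral {T : H →L[ℂ] H} (h : PolynomialBoundFails T) :
    ¬ IsSpectralSet (spectrum ℂ T) T := by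
  rintro ⟨-, -, hs⟩
  obtain ⟨p, M, hM, hlt⟩ := h
  have h2 := hs p 1 (fun z _ => by simp) M (fun z hz => by simpa using hM z hz)
  rw [map_one, Ring.inverse_one, mul_one] at h2
  exact absurd hlt (not_lt.2 h2)

end Pool.Agent.Q186.Toep
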