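import Mathlib
import Pool.Agent.Q186.Toep.Defs

set_option autoImplicit false

open MeasureTheory Polynomial AddCircle
open scoped ENNReal InnerProductSpace ComplexConjugate

namespace Pool.Agent.Q186.Toep

/-- `L²` of the unit circle (normalised Lebesgue measure). -/
abbrev L2 : Type := Lp ℂ 2 (haarAddCircle (T := (1 : ℝ)))

/-- The Hardy space `H²`: the closed linear span of the functions `z ^ n`, `n ≥ 0`, in `L²`. -/
noncomputable def H2 : Submodule ℂ L2 :=
  (Submodule.span ℂ (Set.range fun n : ℕ => (fourierLp 2 (n : ℤ) : L2))).topologicalClosure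

/-- `T` is the Toeplitz operator `T f = P (F f)` on `H²`: `⟪g, T f⟫ = ∫ conj g F f` for all `f`
and `g` in `H²`. -/
def IsToeplitz (F : ℂ → ℂ) (T : H2 →L[ℂ] H2) : Prop :=
  ∀ f g : H2, ⟪(g : L2), (T f : L2)⟫_ℂ =
    ∫ x, conj ((g : L2) x) * (F (fourier 1 x) * (f : L2) x) ∂haarAddCircle

/-! ### An abstract lemma -/

/-- a point `α + c / α` with `1 < ‖α‖` is not in the spectrum -/
lemma not_mem_spectrum_abs {H : Type*} [NormedAddCommGroup H] [InnerProductSpace ℂ H]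
    [CompleteSpace H] {S S' : H →L[ℂ] H} (norm_S : ‖S‖ ≤ 1) (norm_S' : ‖S'‖ ≤ 1)
    (S'_S : S' * S = 1) {c : ℝ} (hc0 : 0 < c) (hc1 : c < 1) {α : ℂ} (hα : 1 < ‖α‖) :
    α + c / α ∉ spectrum ℂ (S + (c : ℂ) • S') := by
  rw [spectrum.notMem_iff]
  have hα0 : α ≠ 0 := by
    rintro rfl
    simp at hα
    linarith
  have h1 : ‖α⁻¹ • S‖ < 1 := by
    rw [norm_smul, norm_inv]
    calc ‖α‖⁻¹ * ‖S‖ ≤ ‖α‖⁻¹ * 1 := by gcongr
      _ < 1 := by rw [mul_one]; exact inv_lt_one_of_one_lt₀ hα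
  have h2 : ‖((c : ℂ) / α) • S'‖ < 1 := by
    rw [norm_smul, norm_div, Complex.norm_real, Real.norm_of_nonneg hc0.le]
    calc c / ‖α‖ * ‖S'‖ ≤ c / ‖α‖ * 1 := by gcongr
      _ < 1 := by rw [mul_one, div_lt_one (by linarith)]; linarith
  have hu : IsUnit ((1 - ((c : ℂ) / α) • S') * (1 - α⁻¹ • S)) :=
    (isUnit_one_sub_of_norm_lt_one h2).mul (isUnit_one_sub_of_norm_lt_one h1)
  have he : algebraMap ℂ (H →L[ℂ] H) (α + c / α) - (S + (c : ℂ) • S') =
      α • ((1 - ((c : ℂ) / α) • S') * (1 - α⁻¹ • S)) := by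
    have h3 : (((c : ℂ) / α) • S') * (α⁻¹ • S) = ((c : ℂ) / α * α⁻¹) • (1 : H →L[ℂ] H) := by
      rw [smul_mul_smul_comm, S'_S]
    rw [sub_mul, mul_sub, mul_sub, one_mul, one_mul, mul_one, h3, Algebra.algebraMap_eq_smul_one,
      smul_sub, smul_sub, smul_sub, smul_smul, smul_smul, smul_smul]
    have e1 : α * α⁻¹ = 1 := mul_inv_cancel₀ hα0
    have e2 : α * (c / α) = c := by field_simp
    have e3 : α * ((c : ℂ) / α * α⁻¹) = c / α := by field_simp
    rw [e1, e2, e3, one_smul, add_smul]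
    abel
  rw [he]
  have : α • ((1 - ((c : ℂ) / α) • S') * (1 - α⁻¹ • S)) =
      (Units.mk0 α hα0) • ((1 - ((c : ℂ) / α) • S') * (1 - α⁻¹ • S)) := rfl
  rw [this]
  exact hu.smul _

/-! ### The shift -/

/-- normalised Lebesgue measure on the unit circle -/
noncomputable abbrev m : Measure (AddCircle (1 : ℝ)) := haarAddCircle

/-- `L^∞` of the circle. -/
abbrev Linf : Type := Lp ℂ ∞ m

lemma orthoF : Orthonormal ℂ (fun n : ℤ => (fourierLp 2 n : L2)) := orthonormal_fourier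

/-- Multiplication by the bounded function `b` on `L²`. -/
noncomputable def mulOp (b : Linf) : L2 →L[ℂ] L2 :=
  (ContinuousLinearMap.mul ℂ ℂ).holderL m ∞ 2 2 b

theorem mulOp_ae (b : Linf) (f : L2) : mulOp b f =ᵐ[m] fun x => b x * f x := by
  have h := ContinuousLinearMap.coeFn_holder (r := 2) (ContinuousLinearMap.mul ℂ ℂ) b f
  exact h

theorem mulOp_norm (b : Linf) (f : L2) : ‖mulOp b f‖ ≤ ‖b‖ * ‖f‖ := by
  have h := ContinuousLinearMap.norm_holder_apply_apply_le (r := 2) (ContinuousLinearMap.mul ℂ ℂ) b f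
  refine h.trans ?_
  have h1 : ‖ContinuousLinearMap.mul ℂ ℂ‖ ≤ 1 := ContinuousLinearMap.opNorm_mul_le ℂ ℂ
  have h2 := mul_le_mul_of_nonneg_right h1 (norm_nonneg b)
  exact mul_le_mul_of_nonneg_right (by linarith) (norm_nonneg f)

/-- the symbol `z ^ n` -/
noncomputable def zSym (n : ℤ) : Linf := fourierLp ∞ n

lemma zSym_ae (n : ℤ) : (zSym n : AddCircle (1 : ℝ) → ℂ) =ᵐ[m] fourier n := coeFn_fourierLp ∞ n

lemma norm_fourier_one (n : ℤ) (x : AddCircle (1 : ℝ)) : ‖(fourier n x : ℂ)‖ = 1 := by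
  rw [fourier_apply, Circle.norm_coe]

lemma norm_zSym (n : ℤ) : ‖zSym n‖ ≤ 1 := by
  refine Lp.norm_le_of_ae_bound zero_le_one ?_ |>.trans ?_
  · filter_upwards [zSym_ae n] with x hx
    rw [hx, norm_fourier_one]
  · simp

lemma mulOp_fourier (j k : ℤ) : mulOp (zSym j) (fourierLp 2 k) = fourierLp 2 (j + k) := by
  apply Lp.ext
  filter_upwards [mulOp_ae (zSym j) (fourierLp 2 k), zSym_ae j, coeFn_fourierLp 2 k,
    coeFn_fourierLp 2 (j + k)] with x h1 h2 h3 h4
  rw [h1, h2, h3, h4, fourier_add]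

lemma fourier_mem (n : ℕ) : (fourierLp 2 (n : ℤ) : L2) ∈ H2 :=
  subset_closure (Submodule.subset_span ⟨n, rfl⟩)

instance completeH2 : CompleteSpace H2 :=
  (Submodule.isClosed_topologicalClosure _).completeSpace_coe

/-- a closed condition which holds for all `z ^ n`, `n ≥ 0`, and is linear, holds on `H²` -/
lemma H2_induction {P : L2 → Prop} (hc : IsClosed {f | P f}) (h0 : P 0)
    (hadd : ∀ f g, P f → P g → P (f + g)) (hs : ∀ (c : ℂ) f, P f → P (c • f))
    (hf : ∀ n : ℕ, P (fourierLp 2 (n : ℤ))) (f : L2) (hfm : f ∈ H2) : P f := by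
  refine closure_minimal (s := ((Submodule.span ℂ
    (Set.range fun n : ℕ => (fourierLp 2 (n : ℤ) : L2)) : Submodule ℂ L2) : Set L2)) ?_ hc hfm
  intro g hg
  refine Submodule.span_induction (p := fun g _ => P g) ?_ h0 (fun f g _ _ => hadd f g)
    (fun c f _ => hs c f) hg
  rintro _ ⟨n, rfl⟩
  exact hf n

lemma mulOp_mem {f : L2} (hf : f ∈ H2) : mulOp (zSym 1) f ∈ H2 := by
  refine H2_induction (P := fun f => mulOp (zSym 1) f ∈ H2) ?_ ?_ ?_ ?_ ?_ f hf
  · exact (Submodule.isClosed_topologicalClosure _).preimage (mulOp (zSym 1)).continuous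
  · rw [map_zero]; exact H2.zero_mem
  · intro f g hf hg
    rw [map_add]; exact H2.add_mem hf hg
  · intro c f hf
    rw [map_smul]; exact H2.smul_mem c hf
  · intro n
    rw [mulOp_fourier]
    have := fourier_mem (n + 1)
    rwa [show ((n + 1 : ℕ) : ℤ) = 1 + (n : ℤ) by push_cast; ring] at this

lemma inner_neg {f : L2} (hf : f ∈ H2) : ⟪f, (fourierLp 2 (-1) : L2)⟫_ℂ = 0 := by
  refine H2_induction (P := fun f => ⟪f, (fourierLp 2 (-1) : L2)⟫_ℂ = 0) ?_ ?_ ?_ ?_ ?_ f hf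
  · exact isClosed_eq (by fun_prop) continuous_const
  · rw [inner_zero_left]
  · intro f g hf hg
    rw [inner_add_left, hf, hg, add_zero]
  · intro c f hf
    rw [inner_smul_left, hf, mul_zero]
  · intro n
    exact orthoF.2 (by omega)

/-- The compression `f ↦ P (b f)` of a multiplication operator to `H²`. -/
noncomputable def toeplitz (b : Linf) : H2 →L[ℂ] H2 :=
  (Submodule.orthogonalProjectionOnto H2).comp ((mulOp b).comp H2.subtypeL)

lemma toeplitz_apply (b : Linf) (f : H2) :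
    toeplitz b f = H2.orthogonalProjectionOnto (mulOp b (f : L2)) := rfl

theorem toeplitz_norm {b : Linf} (hb : ‖b‖ ≤ 1) : ‖toeplitz b‖ ≤ 1 := by
  refine ContinuousLinearMap.opNorm_le_bound _ zero_le_one fun f => ?_
  rw [one_mul]
  have h2 : ‖H2.orthogonalProjectionOnto (mulOp b (f : L2))‖ ≤ ‖mulOp b (f : L2)‖ :=
    Submodule.norm_orthogonalProjectionOnto_apply_le H2 _
  have h3 := mulOp_norm b (f : L2)
  rw [toeplitz_apply]
  refine h2.trans (h3.trans ?_)
  exact mul_le_of_le_one_left (norm_nonneg _) hb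

/-- the shift -/
noncomputable def S : H2 →L[ℂ] H2 := toeplitz (zSym 1)

/-- the backward shift -/
noncomputable def S' : H2 →L[ℂ] H2 := toeplitz (zSym (-1))

lemma norm_S : ‖S‖ ≤ 1 := toeplitz_norm (norm_zSym 1)

lemma norm_S' : ‖S'‖ ≤ 1 := toeplitz_norm (norm_zSym (-1))

theorem S_coe (f : H2) : (S f : L2) = mulOp (zSym 1) f :=
  congrArg Subtype.val (Submodule.orthogonalProjectionOnto_mem_subspace_eq_self
    (⟨mulOp (zSym 1) f, mulOp_mem f.2⟩ : H2))

lemma mulOp_zz (f : L2) : mulOp (zSym (-1)) (mulOp (zSym 1) f) = f := by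
  apply Lp.ext
  filter_upwards [mulOp_ae (zSym (-1)) (mulOp (zSym 1) f), mulOp_ae (zSym 1) f, zSym_ae 1,
    zSym_ae (-1)] with x h1 h2 h3 h4
  rw [h1, h2, h3, h4, ← mul_assoc, ← fourier_add]
  simp

lemma S'_S : S' * S = 1 := by
  ext1 f
  rw [mul_apply_eq_comp, one_apply_eq_self]
  unfold S'
  rw [toeplitz_apply (zSym (-1)), S_coe, mulOp_zz]
  exact Submodule.orthogonalProjectionOnto_mem_subspace_eq_self f

/-- the basis vector `z ^ n` -/
noncomputable def e (n : ℕ) : H2 := ⟨fourierLp 2 (n : ℤ), fourier_mem n⟩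

lemma S_e (n : ℕ) : S (e n) = e (n + 1) := by
  apply Subtype.ext
  rw [S_coe]
  unfold e
  simp only
  rw [mulOp_fourier]
  congr 1
  push_cast; ring

lemma S'_e_succ (n : ℕ) : S' (e (n + 1)) = e n := by
  rw [← S_e]
  have := congrArg (fun A : H2 →L[ℂ] H2 => A (e n)) S'_S
  simpa using this

lemma S'_e_zero : S' (e 0) = 0 := by
  unfold S'
  rw [toeplitz_apply]
  have h : mulOp (zSym (-1)) (e 0 : L2) = fourierLp 2 (-1) := by
    unfold e
    simp only
    rw [mulOp_fourier]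
    congr 1
  rw [h, Submodule.orthogonalProjectionOnto_eq_zero_iff, Submodule.mem_orthogonal]
  intro u hu
  exact inner_neg hu

lemma norm_comb {i j : ℕ} (h : i ≠ j) (c : ℝ) : ‖e i - (c : ℂ) • e j‖ = √(1 + c ^ 2) := by
  have h1 : ‖e i - (c : ℂ) • e j‖ = ‖(fourierLp 2 (i : ℤ) : L2) - (c : ℂ) • fourierLp 2 (j : ℤ)‖ :=
    rfl
  have ho : inner ℂ (fourierLp 2 (i : ℤ) : L2) (fourierLp 2 (j : ℤ)) = 0 :=
    orthoF.2 (by exact_mod_cast h)
  rw [h1, ← Real.sqrt_sq (norm_nonneg _), @norm_sub_sq ℂ]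
  congr 1
  rw [inner_smul_right, ho, norm_smul, orthoF.1, orthoF.1]
  simp

lemma norm_e (i : ℕ) : ‖e i‖ = 1 := by
  have h1 : ‖e i‖ = ‖(fourierLp 2 (i : ℤ) : L2)‖ := rfl
  rw [h1, orthoF.1]

/-! ### The operator `S + c S^*` -/

section op

variable (c : ℝ)

/-- the Toeplitz operator with the symbol `z + c / z` -/
noncomputable def T : H2 →L[ℂ] H2 := S + (c : ℂ) • S'

/-- the polynomials `D n` with `D n (α + c / α) = α ^ n + (c / α) ^ n` -/
noncomputable def D : ℕ → ℂ[X]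
  | 0 => 2
  | 1 => X
  | n + 2 => X * D (n + 1) - C (c : ℂ) * D n

lemma D_eval {α : ℂ} (hα : α ≠ 0) (n : ℕ) :
    (D c n).eval (α + c / α) = α ^ n + (c / α) ^ n := by
  have hc : (c : ℂ) = α * (c / α) := by field_simp
  set γ : ℂ := c / α with hγ
  induction n using Nat.twoStepInduction with
  | zero => simp [D]; norm_num
  | one => simp [D]
  | more n ih1 ih2 =>
    rw [D, eval_sub, eval_mul, eval_mul, ih1, ih2, eval_X, eval_C, hc]
    ring

lemma T_e_zero : T c (e 0) = e 1 := by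
  simp [T, S_e, S'_e_zero]

lemma T_e_succ (n : ℕ) : T c (e (n + 1)) = e (n + 2) + (c : ℂ) • e n := by
  simp [T, S_e, S'_e_succ]

lemma D_step (n : ℕ) (x : H2) : aeval (T c) (D c (n + 2)) x =
    T c (aeval (T c) (D c (n + 1)) x) - (c : ℂ) • aeval (T c) (D c n) x := by
  rw [D, map_sub, map_mul, map_mul, aeval_X, aeval_C, sub_apply, mul_apply_eq_comp,
    mul_apply_eq_comp, Algebra.algebraMap_eq_smul_one]
  rfl

lemma D_T (n : ℕ) :
    aeval (T c) (D c (n + 2)) (e 0) = e (n + 2) - (c : ℂ) • e n := by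
  have h0 : aeval (T c) (D c 0) (e 0) = (2 : ℂ) • e 0 := by
    have : (D c 0) = C (2 : ℂ) := by
      rw [D]; exact (map_ofNat (C : ℂ →+* ℂ[X]) 2).symm
    rw [this, aeval_C, Algebra.algebraMap_eq_smul_one]
    rfl
  have h1 : aeval (T c) (D c 1) (e 0) = e 1 := by
    simp [D, T_e_zero]
  have h2 : aeval (T c) (D c 2) (e 0) = e 2 - (c : ℂ) • e 0 := by
    rw [D_step, h1, h0, T_e_succ]
    module
  have h3 : aeval (T c) (D c 3) (e 0) = e 3 - (c : ℂ) • e 1 := by
    rw [D_step, h2, h1, map_sub, map_smul, T_e_succ, T_e_zero]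
    module
  induction n using Nat.twoStepInduction with
  | zero => exact h2
  | one => exact h3
  | more n ih1 ih2 =>
    rw [D_step c (n + 2), ih1, ih2, map_sub, map_smul, T_e_succ, T_e_succ]
    module

variable {c}

/-- a point `α + c / α` with `1 < ‖α‖` is not in the spectrum -/
lemma not_mem_spectrum (hc0 : 0 < c) (hc1 : c < 1) {α : ℂ} (hα : 1 < ‖α‖) :
    α + c / α ∉ spectrum ℂ (T c) :=
  not_mem_spectrum_abs norm_S norm_S' S'_S hc0 hc1 hα

/-- every complex number is of the form `α + c / α` with `√c ≤ ‖α‖` -/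
lemma exists_param (hc0 : 0 < c) (w : ℂ) :
    ∃ α : ℂ, α ≠ 0 ∧ c ≤ ‖α‖ ^ 2 ∧ w = α + c / α := by
  obtain ⟨s, hs⟩ := IsAlgClosed.exists_pow_nat_eq (w ^ 2 - 4 * c) (n := 2) (by norm_num)
  have key : ∀ α β : ℂ, α * β = c → α + β = w → c ≤ ‖α‖ ^ 2 →
      ∃ α : ℂ, α ≠ 0 ∧ c ≤ ‖α‖ ^ 2 ∧ w = α + c / α := by
    intro α β h1 h2 h3
    have hα : α ≠ 0 := by
      rintro rfl
      rw [norm_zero] at h3
      nlinarith
    refine ⟨α, hα, h3, ?_⟩
    rw [← h1, ← h2]
    field_simp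
  have hprod : (w + s) / 2 * ((w - s) / 2) = c := by
    linear_combination (-1 / 4 : ℂ) * hs
  have hn : ‖(w + s) / 2‖ * ‖(w - s) / 2‖ = c := by
    rw [← norm_mul, hprod, Complex.norm_real, Real.norm_of_nonneg hc0.le]
  rcases le_total ‖(w - s) / 2‖ ‖(w + s) / 2‖ with h | h
  · refine key _ _ hprod (by ring) ?_
    rw [← hn, sq]
    gcongr
  · refine key _ _ (by rw [mul_comm]; exact hprod) (by ring) ?_
    rw [← hn, sq]
    gcongr

lemma D_le (hc0 : 0 < c) (hc1 : c < 1) (n : ℕ) {w : ℂ} (hw : w ∈ spectrum ℂ (T c)) :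
    ‖(D c n).eval w‖ ≤ 1 + c ^ n := by
  obtain ⟨α, hα0, hα, rfl⟩ := exists_param hc0 w
  have h1 : ‖α‖ ≤ 1 := by
    by_contra h
    push Not at h
    exact not_mem_spectrum hc0 hc1 h hw
  have hpos : 0 < ‖α‖ := norm_pos_iff.2 hα0
  rw [D_eval c hα0]
  refine (norm_add_le _ _).trans ?_
  rw [norm_pow, norm_pow, norm_div, Complex.norm_real, Real.norm_of_nonneg hc0.le]
  have h2 : ‖α‖ ^ n ≤ 1 := pow_le_one₀ hpos.le h1
  have h3 : (c / ‖α‖) ^ n ≤ 1 := by
    refine pow_le_one₀ (by positivity) ?_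
    rw [div_le_one hpos]
    nlinarith
  have h4 : ‖α‖ ^ n * (c / ‖α‖) ^ n = c ^ n := by
    rw [← mul_pow]; congr 1; field_simp
  nlinarith [mul_nonneg (sub_nonneg.2 h2) (sub_nonneg.2 h3)]

lemma le_norm (n : ℕ) : √(1 + c ^ 2) ≤ ‖aeval (T c) (D c (n + 2))‖ := by
  rw [← norm_comb (show n + 2 ≠ n by omega) c, ← D_T]
  refine ((aeval (T c) (D c (n + 2))).le_opNorm (e 0)).trans ?_
  rw [norm_e, mul_one]

lemma exists_gap (hc0 : 0 < c) (hc1 : c < 1) : ∃ n : ℕ, 1 + c ^ (n + 2) < √(1 + c ^ 2) := by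
  have h1 : 1 < √(1 + c ^ 2) := by
    rw [Real.lt_sqrt (by norm_num)]
    nlinarith [sq_nonneg c, pow_pos hc0 2]
  obtain ⟨n, hn⟩ := exists_pow_lt_of_lt_one (sub_pos.2 h1) hc1
  refine ⟨n, ?_⟩
  have h2 : c ^ (n + 2) ≤ c ^ n := pow_le_pow_of_le_one hc0.le hc1.le (by omega)
  linarith

end op

/-! ### The symbol -/

lemma toeplitz_inner (b : Linf) (f g : H2) :
    ⟪(g : L2), (toeplitz b f : L2)⟫_ℂ = ∫ x, conj ((g : L2) x) * (b x * (f : L2) x) ∂m := by
  have h1 : ⟪(g : L2), (toeplitz b f : L2)⟫_ℂ = ⟪(g : L2), mulOp b (f : L2)⟫_ℂ := by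
    rw [toeplitz_apply]
    exact Submodule.inner_orthogonalProjectionOnto_eq_of_mem_left g _
  rw [h1, MeasureTheory.L2.inner_def]
  apply integral_congr_ae
  filter_upwards [mulOp_ae b (f : L2)] with x hx
  rw [hx, RCLike.inner_apply']

lemma integrable_aux (b : Linf) (f g : L2) :
    Integrable (fun x => conj (g x) * (b x * f x)) m := by
  have h := MeasureTheory.L2.integrable_inner (𝕜 := ℂ) g (mulOp b f)
  refine h.congr ?_
  filter_upwards [mulOp_ae b f] with x hx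
  rw [hx, RCLike.inner_apply']

lemma isToeplitz_unique {F : ℂ → ℂ} {T T' : H2 →L[ℂ] H2} (h : IsToeplitz F T)
    (h' : IsToeplitz F T') : T = T' := by
  ext1 f
  refine ext_inner_left ℂ fun g => ?_
  exact (h f g).trans (h' f g).symm

lemma isToeplitz_T (c : ℝ) : IsToeplitz (fun z => (z ^ 2 + c) / z) (T c) := by
  intro f g
  have h1 : ⟪(g : L2), (T c f : L2)⟫_ℂ =
      ⟪(g : L2), (S f : L2)⟫_ℂ + (c : ℂ) * ⟪(g : L2), (S' f : L2)⟫_ℂ := by
    rw [← inner_smul_right, ← inner_add_right]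
    rfl
  rw [h1]
  unfold S S'
  rw [toeplitz_inner, toeplitz_inner, ← integral_const_mul, ← integral_add]
  · apply integral_congr_ae
    filter_upwards [zSym_ae 1, zSym_ae (-1)] with x h2 h3
    rw [h2, h3]
    have hne : (fourier 1 x : ℂ) ≠ 0 := by
      intro h0
      have := norm_fourier_one 1 x
      rw [h0, norm_zero] at this
      norm_num at this
    have hinv : (fourier (-1) x : ℂ) = (fourier 1 x : ℂ)⁻¹ := by
      refine eq_inv_of_mul_eq_one_left ?_
      rw [← fourier_add]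
      simp
    rw [hinv]
    field_simp
  · exact integrable_aux _ _ _
  · exact (integrable_aux _ _ _).const_mul _

/-- the curve `z ↦ z + c / z` is injective on the unit circle -/
lemma curve_injective {c : ℝ} (hc0 : 0 < c) (hc1 : c < 1) :
    Function.Injective fun z : Circle => ((z : ℂ) ^ 2 + c) / z := by
  intro z w h
  have hz : (z : ℂ) ≠ 0 := Circle.coe_ne_zero z
  have hw : (w : ℂ) ≠ 0 := Circle.coe_ne_zero w
  have h' : ((z : ℂ) ^ 2 + c) / z = ((w : ℂ) ^ 2 + c) / w := h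
  rw [div_eq_div_iff hz hw] at h'
  have h2 : ((z : ℂ) - w) * (z * w - c) = 0 := by linear_combination h'
  rcases mul_eq_zero.1 h2 with h3 | h3
  · exact Circle.ext (sub_eq_zero.1 h3)
  · exfalso
    have h4 : ‖(z : ℂ) * w‖ = c := by
      rw [sub_eq_zero.1 h3, Complex.norm_real, Real.norm_of_nonneg hc0.le]
    rw [norm_mul, Circle.norm_coe, Circle.norm_coe] at h4
    linarith

lemma violation {c : ℝ} (hc0 : 0 < c) (hc1 : c < 1) : PolynomialBoundFails (T c) := by
  obtain ⟨n, hn⟩ := exists_gap hc0 hc1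
  exact ⟨D c (n + 2), 1 + c ^ (n + 2), fun z hz => D_le hc0 hc1 _ hz,
    lt_of_lt_of_le hn (le_norm n)⟩

lemma mem_H2_iff (f : L2) : f ∈ H2 ↔ ∀ n : ℤ, n < 0 → fourierCoeff f n = 0 := by
  have hcoef : ∀ (n : ℤ) (f : L2), fourierCoeff f n = ⟪(fourierLp 2 n : L2), f⟫_ℂ := by
    intro n f
    rw [← fourierBasis_repr, HilbertBasis.repr_apply_apply, coe_fourierBasis]
  constructor
  · intro hf n hn
    rw [hcoef]
    refine H2_induction (P := fun f => ⟪(fourierLp 2 n : L2), f⟫_ℂ = 0) ?_ ?_ ?_ ?_ ?_ f hf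
    · exact isClosed_eq (by fun_prop) continuous_const
    · rw [inner_zero_right]
    · intro f g hf hg
      rw [inner_add_right, hf, hg, add_zero]
    · intro c f hf
      rw [inner_smul_right, hf, mul_zero]
    · intro k
      exact orthoF.2 (by omega)
  · intro hf
    have h1 := hasSum_fourier_series_L2 f
    refine (Submodule.isClosed_topologicalClosure _).mem_of_tendsto h1
      (Filter.Eventually.of_forall fun s => ?_)
    refine H2.sum_mem fun n _ => ?_
    by_cases hn : n < 0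
    · rw [hf n hn, zero_smul]; exact H2.zero_mem
    · refine H2.smul_mem _ ?_
      obtain ⟨k, rfl⟩ := Int.eq_ofNat_of_zero_le (not_lt.1 hn)
      exact fourier_mem k

end Pool.Agent.Q186.Toep
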